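import Pool.Agent.L0h48.DS.Cyc

/-!
# The rank one abelian Stark conjecture for ATR fields: totally odd characters of order four

`k` is an ATR field which is a quadratic extension of a totally real field `F`, and `K/k` is a finite
abelian extension, Galois over `F`, contained in the narrow ray class field of `k` modulo `𝔣`.
-/

set_option autoImplicit false

namespace Pool.Agent.Results.MP_29cb78_nt.DihedralStark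

open NumberField NumberField.InfinitePlace Module IsDedekindDomain Ideal
open scoped ComplexConjugate

section defs

variable {k K : Type} [Field k] [NumberField k] [Field K] [NumberField K] [Algebra k K]

/-- `x` is totally positive. -/
def TotPos (x : k) : Prop := ∀ τ : k →+* ℝ, 0 < τ x

/-- The number of real places of `k` at which `x` is negative. -/
noncomputable def negatives (x : k) : ℕ :=
  Nat.card {w : InfinitePlace k // ∃ hw : w.IsReal, InfinitePlace.embedding_of_isReal hw x < 0}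

/-- `K/k` is unramified outside `𝔣`, `art 𝔞` is the Artin symbol of the nonzero ideal `𝔞` prime to
`𝔣`, and it is trivial on the principal ideals `(x)` with `x ≡ 1 mod 𝔣` totally positive, i.e. `K` is
contained in the narrow ray class field modulo `𝔣`. -/
structure IsArtin (𝔣 : Ideal (𝓞 k)) (art : Ideal (𝓞 k) → (K ≃ₐ[k] K)) : Prop where
  ne_bot : 𝔣 ≠ ⊥
  mul : ∀ 𝔞 𝔟 : Ideal (𝓞 k), 𝔞 ≠ ⊥ → 𝔟 ≠ ⊥ → IsCoprime 𝔞 𝔣 → IsCoprime 𝔟 𝔣 →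
    art (𝔞 * 𝔟) = art 𝔞 * art 𝔟
  frob : ∀ 𝔭 : Ideal (𝓞 k), 𝔭.IsPrime → 𝔭 ≠ ⊥ → IsCoprime 𝔭 𝔣 → ∀ P : Ideal (𝓞 K),
    P.IsPrime → P.LiesOver 𝔭 → ∀ x : 𝓞 K, art 𝔭 • x - x ^ absNorm 𝔭 ∈ P
  unram : ∀ 𝔭 : Ideal (𝓞 k), 𝔭.IsPrime → 𝔭 ≠ ⊥ → IsCoprime 𝔭 𝔣 → ∀ P : Ideal (𝓞 K),
    P.IsPrime → P.LiesOver 𝔭 → ∀ g : K ≃ₐ[k] K, (∀ x : 𝓞 K, g • x - x ∈ P) → g = 1
  ray : ∀ x : 𝓞 k, x ≠ 0 → x - 1 ∈ 𝔣 → TotPos (x : k) → art (Ideal.span {x}) = 1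

/-- The character `χ` is totally odd: `χ((x))` is the product of the signs of `x` at all the real
places, for `x ≡ 1 mod 𝔣`. -/
def TotallyOdd (𝔣 : Ideal (𝓞 k)) (art : Ideal (𝓞 k) → (K ≃ₐ[k] K)) (χ : (K ≃ₐ[k] K) →* ℂˣ) :
    Prop :=
  ∀ x : 𝓞 k, x ≠ 0 → x - 1 ∈ 𝔣 → χ (art (Ideal.span {x})) = (-1) ^ negatives (x : k)

/-- `𝔞` and `𝔟` are in the same narrow ray class modulo `𝔣`. -/
def SameRay (𝔣 𝔞 𝔟 : Ideal (𝓞 k)) : Prop :=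
  ∃ x y : 𝓞 k, x ≠ 0 ∧ y ≠ 0 ∧ x - 1 ∈ 𝔣 ∧ y - 1 ∈ 𝔣 ∧ TotPos (x : k) ∧ TotPos (y : k) ∧
    Ideal.span {x} * 𝔞 = Ideal.span {y} * 𝔟

/-- The zeta function `∑ N(𝔞)^(-s)` of the set `A` of ideals has a meromorphic continuation which is
analytic at `0`, with derivative `d` there. -/
def ZetaDeriv (A : Set (Ideal (𝓞 k))) (d : ℝ) : Prop :=
  ∃ Z : ℂ → ℂ, (∀ z, MeromorphicAt Z z) ∧
    (∀ s : ℂ, 1 < s.re → HasSum (fun 𝔞 : A => ((absNorm (𝔞 : Ideal (𝓞 k)) : ℕ) : ℂ) ^ (-s)) (Z s)) ∧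
    AnalyticAt ℂ Z 0 ∧ deriv Z 0 = (d : ℂ)

end defs

/-- `χ` has order dividing four, is not quadratic or trivial, and every element of `Gal(K/F)` which
is not the identity on `k` takes it to its inverse. -/
def Dihedral4 (F : Type) {k K : Type} [Field F] [Field k] [Field K] [Algebra F K] [Algebra k K]
    (χ : (K ≃ₐ[k] K) →* ℂˣ) : Prop :=
  (∀ g, χ g ^ 4 = 1) ∧ (∃ g, χ g ^ 2 ≠ 1) ∧
    ∀ γ : K ≃ₐ[F] K, (∃ y : k, γ (algebraMap k K y) ≠ algebraMap k K y) →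
      ∀ g g' : K ≃ₐ[k] K, (∀ x, g' (γ x) = γ (g x)) → χ g' = (χ g)⁻¹

/-- **The rank one abelian Stark conjecture** for `K/k`: `F` is totally real, `k/F` is quadratic with
exactly one complex place, `K/F` is Galois. -/
theorem result (F k K : Type) [Field F] [NumberField F] [IsTotallyReal F] [Field k] [NumberField k]
    [Field K] [NumberField K] [Algebra F k] [Algebra k K] [Algebra F K] [IsScalarTower F k K]
    [IsGalois F K] (hdeg : finrank F k = 2) (hc : nrComplexPlaces k = 1)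
    (hr : 1 ≤ nrRealPlaces k) (𝔣 : Ideal (𝓞 k)) (art : Ideal (𝓞 k) → (K ≃ₐ[k] K))
    (hart : IsArtin 𝔣 art)
    -- an embedding of `K` above the complex place of `k`
    (ι : K →+* ℂ) (hι : ∃ y : k, conj (ι (algebraMap k K y)) ≠ ι (algebraMap k K y))
    -- the characters
    (hG : ((∀ a b : K ≃ₐ[k] K, a * b = b * a) ∧
        ∀ χ : (K ≃ₐ[k] K) →* ℂˣ, TotallyOdd 𝔣 art χ → Dihedral4 F χ) ∨
      (Nat.card (K ≃ₐ[k] K) = 4 ∧ (∃ g : K ≃ₐ[k] K, g * g ≠ 1) ∧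
        ∃ a b : K ≃ₐ[F] K, a * b ≠ b * a))
    -- the power of two
    (T : Finset (HeightOneSpectrum (𝓞 F)))
    (hT : ∀ p ∈ T, (∀ q : Ideal (𝓞 k), q.IsPrime → q.LiesOver p.asIdeal → 𝔣 ≤ q) ∨
      ∃ P : Ideal (𝓞 K), P.IsPrime ∧ P.LiesOver p.asIdeal ∧
        ∃ s : K ≃ₐ[F] K, (∀ x, conj (ι x) = ι (s x)) ∧ ∀ x : 𝓞 K, s • x - x ∈ P)
    (hcard : Nat.card (K ≃ₐ[k] K) ∣ 2 ^ (nrRealPlaces k - 1 + T.card)) :
    ∃ u : (𝓞 K)ˣ,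
      (∀ g : K ≃ₐ[k] K, ZetaDeriv {𝔞 : Ideal (𝓞 k) | 𝔞 ≠ ⊥ ∧ IsCoprime 𝔞 𝔣 ∧ art 𝔞 = g}
        (-(1 / Units.torsionOrder K) * Real.log (‖ι (g ((u : 𝓞 K) : K))‖ ^ 2))) ∧
      (∀ φ : K →+* ℂ, (∀ y : k, conj (φ (algebraMap k K y)) = φ (algebraMap k K y)) →
        ‖φ ((u : 𝓞 K) : K)‖ = 1) ∧
      (∃ x : (𝓞 K)ˣ, x ^ Units.torsionOrder K = u) ∧
      ((∀ 𝔞 𝔟 : Ideal (𝓞 k), 𝔞 ≠ ⊥ → 𝔟 ≠ ⊥ → IsCoprime 𝔞 𝔣 → IsCoprime 𝔟 𝔣 → art 𝔞 = art 𝔟 →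
          SameRay 𝔣 𝔞 𝔟) →
        ∀ 𝔟 : Ideal (𝓞 k), 𝔟 ≠ ⊥ → IsCoprime 𝔟 𝔣 →
          ZetaDeriv {𝔞 : Ideal (𝓞 k) | 𝔞 ≠ ⊥ ∧ IsCoprime 𝔞 𝔣 ∧ SameRay 𝔣 𝔞 𝔟}
            (-(1 / Units.torsionOrder K) *
              Real.log (‖ι (art 𝔟 ((u : 𝓞 K) : K))‖ ^ 2))) := by
  have h : Pool.Agent.L0h48.DS.IsArt 𝔣 art := ⟨hart.ne_bot, hart.mul, hart.frob, hart.unram, hart.ray⟩
  have hab : ∀ a b : K ≃ₐ[k] K, a * b = b * a := by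
    rcases hG with h1 | ⟨h1, ⟨g, hg⟩, -⟩
    · exact h1.1
    · exact Pool.Agent.L0h48.DS.cyc_comm h1 hg
  have hodd : ∀ χ : (K ≃ₐ[k] K) →* ℂˣ, Pool.Agent.L0h48.DS.TotOdd 𝔣 art χ → Dihedral4 F χ := by
    rcases hG with h1 | ⟨h1, ⟨g, hg⟩, a, b, hne⟩
    · exact h1.2
    · exact fun χ hχ => Pool.Agent.L0h48.DS.cyc_cond hdeg hr h h1 hg hne χ hχ
  have hι' : ¬ ∀ x : k, conj (ι (algebraMap k K x)) = ι (algebraMap k K x) := by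
    obtain ⟨y, hy⟩ := hι
    exact fun h1 => hy (h1 y)
  obtain ⟨x, hx1, hx2⟩ := Pool.Agent.L0h48.DS.main hdeg hc hr hab h ι hι' hodd T hT hcard
  have he : (Units.torsionOrder K : ℝ) ≠ 0 := by exact_mod_cast (Units.torsionOrder_pos K).ne'
  have hpow : (((x ^ Units.torsionOrder K : (𝓞 K)ˣ) : 𝓞 K) : K) =
      ((x : 𝓞 K) : K) ^ Units.torsionOrder K := by
    rw [Units.val_pow_eq_pow_val]
    exact map_pow (algebraMap (𝓞 K) K) _ _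
  have hval : ∀ g : K ≃ₐ[k] K, -(1 / (Units.torsionOrder K : ℝ)) *
      Real.log (‖ι (g (((x ^ Units.torsionOrder K : (𝓞 K)ˣ) : 𝓞 K) : K))‖ ^ 2) =
      -Real.log (‖ι (g ((x : 𝓞 K) : K))‖ ^ 2) := by
    intro g
    rw [hpow, map_pow, map_pow, norm_pow, ← pow_mul, mul_comm (Units.torsionOrder K) 2, pow_mul,
      Real.log_pow]
    field_simp
  have hz : ∀ g : K ≃ₐ[k] K, ZetaDeriv {𝔞 : Ideal (𝓞 k) | 𝔞 ≠ ⊥ ∧ IsCoprime 𝔞 𝔣 ∧ art 𝔞 = g}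
      (-(1 / Units.torsionOrder K) *
        Real.log (‖ι (g (((x ^ Units.torsionOrder K : (𝓞 K)ˣ) : 𝓞 K) : K))‖ ^ 2)) := by
    intro g
    obtain ⟨Z, hZ1, hZ2, hZ3, hZ4⟩ := hx1 g
    rw [hval g]
    exact ⟨Z, hZ1, hZ3, hZ2, hZ4⟩
  refine ⟨x ^ Units.torsionOrder K, hz, fun φ hφ => ?_, ⟨x, rfl⟩, fun hray 𝔟 hb1 hb2 => ?_⟩
  · rw [hpow, map_pow, norm_pow, hx2 φ hφ, one_pow]
  · have hset : {𝔞 : Ideal (𝓞 k) | 𝔞 ≠ ⊥ ∧ IsCoprime 𝔞 𝔣 ∧ SameRay 𝔣 𝔞 𝔟} =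
        {𝔞 : Ideal (𝓞 k) | 𝔞 ≠ ⊥ ∧ IsCoprime 𝔞 𝔣 ∧ art 𝔞 = art 𝔟} := by
      ext 𝔞
      constructor
      · rintro ⟨h1, h2, y, z, hy0, hz0, hy1, hz1, hy2, hz2, he⟩
        refine ⟨h1, h2, ?_⟩
        have h3 := congrArg art he
        rw [h.mul _ _ (Pool.Agent.L0h48.DS.span_ne hy0) h1 (Pool.Agent.L0h48.DS.cop_span hy1) h2,
          h.mul _ _ (Pool.Agent.L0h48.DS.span_ne hz0) hb1 (Pool.Agent.L0h48.DS.cop_span hz1) hb2, h.ray y hy0 hy1 hy2,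
          h.ray z hz0 hz1 hz2, one_mul, one_mul] at h3
        exact h3
      · rintro ⟨h1, h2, h3⟩
        exact ⟨h1, h2, hray 𝔞 𝔟 h1 hb1 h2 hb2 h3⟩
    rw [hset]
    exact hz (art 𝔟)

end Pool.Agent.Results.MP_29cb78_nt.DihedralStark
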